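import Pool.Agent.Helper24.AL.St
import Pool.Agent.Helper28.PC.N3

set_option autoImplicit false

namespace Pool.Agent.Helper36.AL

open Pool.Agent.Helper24.AL
open Finset Matrix
open Pool.Agent.Helper56.SW (τ Γ I bx E Rel N Nq)

theorem hAVG (hPOS : StPOS) (hEQ : StEQ) (hS6 : StS6) : StAVG := by
  intro K ε hK hε
  obtain ⟨C₂, hC₂, h6⟩ := hS6 (2 * K) (ε / 2) (by linarith) (by linarith)
  obtain ⟨C₁, hC₁, h1⟩ := Pool.Agent.Helper28.PC.N3 (ε / 2) (by linarith)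
  have hC₁0 : 0 < C₁ := by linarith
  refine ⟨8192 * C₁ * C₂, by positivity, ?_⟩
  intro c A B hc hA hAB hB
  have hc0 : (0 : ℝ) < c := by exact_mod_cast hc
  have hτ : τ c ≤ C₁ * (c : ℝ) ^ (ε / 2) := h1 c hc
  have hτ0 : 0 ≤ τ c := by
    unfold Pool.Agent.Helper56.SW.τ
    positivity
  have e1 : ∀ l ∈ Us c, (N c 1 l 3 A B : ℝ) ≤ 128 * τ c * (Q6 c l (2 * A) (2 * B) : ℝ) := by
    intro l hl
    have hl' : Nat.Coprime l c := (Finset.mem_filter.1 hl).2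
    have hcop : IsCoprime (l : ℤ) (c : ℤ) := Nat.isCoprime_iff_coprime.2 hl'
    have a := hPOS c 1 l 3 A B hc (by norm_num)
    have b : (N1 c 1 l 3 (2 * A) (2 * B) : ℝ) ≤ (Q6 c l (2 * A) (2 * B) : ℝ) := by
      exact_mod_cast hEQ c l (2 * A) (2 * B) hc hcop
    calc (N c 1 l 3 A B : ℝ) ≤ 2 * τ c * 4 ^ 3 * (N1 c 1 l 3 (2 * A) (2 * B) : ℝ) := a
      _ ≤ 2 * τ c * 4 ^ 3 * (Q6 c l (2 * A) (2 * B) : ℝ) :=
          mul_le_mul_of_nonneg_left b (by positivity)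
      _ = _ := by ring
  have e2 := h6 c (2 * A) (2 * B) hc (by omega) (by omega) (by push_cast; linarith)
  have e3 : (∑ l ∈ Us c, (N c 1 l 3 A B : ℝ)) ≤
      128 * τ c * ∑ l ∈ Us c, (Q6 c l (2 * A) (2 * B) : ℝ) := by
    rw [Finset.mul_sum]
    exact Finset.sum_le_sum e1
  have hpow : (c : ℝ) ^ (1 + ε) = c * ((c : ℝ) ^ (ε / 2) * (c : ℝ) ^ (ε / 2)) := by
    rw [← Real.rpow_add hc0, Real.rpow_add hc0, Real.rpow_one]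
    congr 2
    ring
  have hp : 0 < (c : ℝ) ^ (ε / 2) := Real.rpow_pos_of_pos hc0 _
  set p : ℝ := (c : ℝ) ^ (ε / 2) with hpdef
  have hB0 : (0 : ℝ) ≤ (B : ℝ) ^ 2 := by positivity
  have hX : (c : ℝ) * ((2 * B : ℕ) : ℝ) ^ 2 + (((2 * A : ℕ) : ℝ) * ((2 * B : ℕ) : ℝ)) ^ 3 / (c : ℝ) ^ 2 ≤
      64 * (c * ((B : ℝ) ^ 2 + ((A : ℝ) * B) ^ 3 / (c : ℝ) ^ 3)) := by
    have h : (c : ℝ) * ((B : ℝ) ^ 2 + ((A : ℝ) * B) ^ 3 / (c : ℝ) ^ 3) =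
        c * (B : ℝ) ^ 2 + ((A : ℝ) * B) ^ 3 / (c : ℝ) ^ 2 := by
      field_simp
    rw [h]
    push_cast
    have h' : (2 * (A : ℝ) * (2 * B)) ^ 3 / (c : ℝ) ^ 2 = 64 * (((A : ℝ) * B) ^ 3 / (c : ℝ) ^ 2) := by
      ring
    rw [h']
    have : (0 : ℝ) ≤ c * (B : ℝ) ^ 2 := by positivity
    nlinarith
  have hX0 : (0 : ℝ) ≤ (c : ℝ) * ((2 * B : ℕ) : ℝ) ^ 2 +
      (((2 * A : ℕ) : ℝ) * ((2 * B : ℕ) : ℝ)) ^ 3 / (c : ℝ) ^ 2 := by positivity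
  calc (∑ l ∈ Us c, (N c 1 l 3 A B : ℝ))
      ≤ 128 * τ c * ∑ l ∈ Us c, (Q6 c l (2 * A) (2 * B) : ℝ) := e3
    _ ≤ 128 * τ c * (C₂ * p * ((c : ℝ) * ((2 * B : ℕ) : ℝ) ^ 2 +
          (((2 * A : ℕ) : ℝ) * ((2 * B : ℕ) : ℝ)) ^ 3 / (c : ℝ) ^ 2)) :=
        mul_le_mul_of_nonneg_left e2 (by positivity)
    _ ≤ 128 * (C₁ * p) * (C₂ * p * ((c : ℝ) * ((2 * B : ℕ) : ℝ) ^ 2 +
          (((2 * A : ℕ) : ℝ) * ((2 * B : ℕ) : ℝ)) ^ 3 / (c : ℝ) ^ 2)) := by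
        refine mul_le_mul_of_nonneg_right ?_ (by positivity)
        linarith
    _ ≤ 128 * (C₁ * p) * (C₂ * p * (64 * (c * ((B : ℝ) ^ 2 + ((A : ℝ) * B) ^ 3 / (c : ℝ) ^ 3)))) := by
        refine mul_le_mul_of_nonneg_left ?_ (by positivity)
        exact mul_le_mul_of_nonneg_left hX (by positivity)
    _ = 8192 * C₁ * C₂ * (c : ℝ) ^ (1 + ε) * ((B : ℝ) ^ 2 + ((A : ℝ) * B) ^ 3 / (c : ℝ) ^ 3) := by
        rw [hpow]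
        ring

end Pool.Agent.Helper36.AL
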