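import Pool.Agent.Helper79.AL.St1

/-!
Project AL (helper79), module DZ: defect zero.
-/

set_option autoImplicit false

namespace Pool.Agent.Helper36.AL

open Matrix ComplexConjugate Pool.Agent.Helper94.YG
open Pool.Agent.Helper94.YF hiding StORB
open Pool.Agent.Helper89.OS Pool.Agent.Helper89.OC Pool.Agent.Helper79.AL

theorem hDZ : StDZ := by
  classical
  intro I _ _ p X hp5 k hk
  have hRAT := Pool.Agent.Helper94.YF.hRAT'
  have hp := X.prime
  have hp0 : (p : ℂ) ≠ 0 := Nat.cast_ne_zero.2 hp.ne_zero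
  -- integrality
  obtain ⟨w, hw, hcon⟩ := X.con
  obtain ⟨e, he⟩ := hk
  have hcop : IsCoprime ((X.m : ℤ) ^ 2) (p : ℤ) := by
    apply IsCoprime.pow_left
    rw [Nat.isCoprime_iff_coprime]
    exact ((Nat.Prime.coprime_iff_not_dvd hp).2 X.cop).symm
  obtain ⟨u, v, huv⟩ := hcop
  have huvC : (u : ℂ) * (X.m : ℂ) ^ 2 + (v : ℂ) * (p : ℂ) = 1 := by exact_mod_cast huv
  have hα : ∀ i, IsIntegral ℤ (X.s k i / p) := by
    intro i
    have h1 : IsIntegral ℤ ((X.m : ℂ) ^ 2 * (X.s k i / p)) := by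
      have h2 : (X.m : ℂ) ^ 2 * (X.s k i / p) = (e : ℂ) * ∑ l, w i l * X.chi k l := by
        have h3 := hcon i k
        rw [he] at h3
        push_cast at h3
        field_simp
        rw [h3]
      rw [h2]
      refine IsIntegral.mul ?_ (IsIntegral.sum _ fun l _ => (hw i l).mul (X.chi_int k l))
      exact_mod_cast (isIntegral_algebraMap (R := ℤ) (A := ℂ) (x := (e : ℤ)))
    have h4 : X.s k i / p = (u : ℂ) * ((X.m : ℂ) ^ 2 * (X.s k i / p)) + (v : ℂ) * X.s k i := by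
      have h5 : (v : ℂ) * X.s k i = (v : ℂ) * p * (X.s k i / p) := by field_simp
      rw [h5, ← mul_assoc, ← add_mul, huvC, one_mul]
    rw [h4]
    have hz : ∀ z : ℤ, IsIntegral ℤ (z : ℂ) := fun z => by
      simpa using (isIntegral_algebraMap (R := ℤ) (A := ℂ) (x := z))
    exact ((hz u).mul h1).add ((hz v).mul (X.s_int k i))
  -- the norm
  have hsum : ∑ i, ‖X.s k i / p‖ ^ 2 = 1 := by
    have h1 := X.s_uni k k
    rw [if_pos rfl] at h1
    have h2 : ((∑ i, ‖X.s k i‖ ^ 2 : ℝ) : ℂ) = (p : ℂ) ^ 2 := by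
      rw [← h1]
      push_cast
      refine Finset.sum_congr rfl fun i _ => ?_
      rw [Complex.mul_conj, Complex.normSq_eq_norm_sq]
      push_cast
      rfl
    have h3 : (∑ i, ‖X.s k i‖ ^ 2 : ℝ) = (p : ℝ) ^ 2 := by exact_mod_cast h2
    have hpR : (p : ℝ) ≠ 0 := Nat.cast_ne_zero.2 hp.ne_zero
    have h4 : ∀ i, ‖X.s k i / p‖ ^ 2 = ‖X.s k i‖ ^ 2 / (p : ℝ) ^ 2 := by
      intro i
      rw [norm_div, Complex.norm_natCast, div_pow]
    simp only [h4]
    rw [← Finset.sum_div, h3]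
    exact div_self (pow_ne_zero 2 hpR)
  set T : Finset I := Finset.univ.filter fun i => X.s k i ≠ 0 with hT
  have hmem : ∀ i, i ∈ T ↔ X.s k i ≠ 0 := by
    intro i
    simp [hT]
  have hne : ∀ i ∈ T, X.s k i / p ≠ 0 := fun i hi => div_ne_zero ((hmem i).1 hi) hp0
  have hTsum : ∑ i ∈ T, ‖X.s k i / p‖ ^ 2 = 1 := by
    rw [← hsum]
    apply Finset.sum_subset (Finset.subset_univ _)
    intro i _ hi
    have h1 : X.s k i = 0 := by
      by_contra h
      exact hi ((hmem i).2 h)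
    rw [h1]
    simp
  have hinj : ∀ c, Function.Injective (X.pi c) := by
    intro c i j hij
    have h1 := congrArg (X.pi c⁻¹) hij
    rwa [← X.pi_mul, ← X.pi_mul, inv_mul_cancel, X.pi_one, X.pi_one] at h1
  have hint : IsIntegral ℤ (∏ j ∈ T, X.s k j / p) := IsIntegral.prod _ fun j _ => hα j
  have hfix : ∀ σ : ℂ ≃+* ℂ, σ (∏ j ∈ T, X.s k j / p) = ∏ j ∈ T, X.s k j / p := by
    intro σ
    obtain ⟨c, hc⟩ := X.gal σ
    rw [map_prod]
    have himg : T.image (X.pi c) = T := by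
      apply Finset.eq_of_subset_of_card_le
      · intro x hx
        obtain ⟨j, hj, rfl⟩ := Finset.mem_image.1 hx
        rw [hmem, ← hc k j]
        intro h
        exact (hmem j).1 hj ((map_eq_zero_iff σ σ.injective).1 h)
      · rw [Finset.card_image_of_injective T (hinj c)]
    calc ∏ j ∈ T, σ (X.s k j / p) = ∏ j ∈ T, X.s k (X.pi c j) / p := by
          refine Finset.prod_congr rfl fun j _ => ?_
          rw [map_div₀, hc, map_natCast]
      _ = ∏ j ∈ T.image (X.pi c), X.s k j / p := by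
          rw [Finset.prod_image fun x _ y _ h => hinj c h]
      _ = ∏ j ∈ T, X.s k j / p := by rw [himg]
  obtain ⟨n, hn⟩ := hRAT.1 _ hint hfix
  have hP0 : (∏ j ∈ T, X.s k j / p) ≠ 0 := Finset.prod_ne_zero_iff.2 hne
  have hn0 : n ≠ 0 := by
    rintro rfl
    exact hP0 (by rw [← hn]; simp)
  have hnorm : (1 : ℝ) ≤ ‖∏ j ∈ T, X.s k j / p‖ := by
    rw [← hn]
    have h1 : (1 : ℤ) ≤ |n| := Int.one_le_abs hn0
    have h2 : ‖(n : ℂ)‖ = ((|n| : ℤ) : ℝ) := by
      rw [Complex.norm_intCast, Int.cast_abs]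
    rw [h2]
    exact_mod_cast h1
  have hprod : (1 : ℝ) ≤ ∏ j ∈ T, ‖X.s k j / p‖ ^ 2 := by
    rw [Finset.prod_pow, ← norm_prod]
    nlinarith
  have hlog : 0 ≤ ∑ j ∈ T, Real.log (‖X.s k j / p‖ ^ 2) := by
    rw [← Real.log_prod fun j hj => pow_ne_zero 2 (norm_ne_zero_iff.2 (hne j hj))]
    exact Real.log_nonneg hprod
  have hle : ∑ j ∈ T, Real.log (‖X.s k j / p‖ ^ 2) ≤ ∑ j ∈ T, (‖X.s k j / p‖ ^ 2 - 1) := by
    apply Finset.sum_le_sum
    intro j hj
    have hpos : 0 < ‖X.s k j / p‖ ^ 2 := pow_pos (norm_pos_iff.2 (hne j hj)) 2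
    exact Real.log_le_sub_one_of_pos hpos
  have hcard : (T.card : ℝ) ≤ 1 := by
    have h1 : ∑ j ∈ T, (‖X.s k j / p‖ ^ 2 - 1) = 1 - (T.card : ℝ) := by
      rw [Finset.sum_sub_distrib, hTsum]
      simp
    linarith
  have hcard' : T.card ≤ 1 := by exact_mod_cast hcard
  have hTne : T.Nonempty := by
    by_contra h
    rw [Finset.not_nonempty_iff_eq_empty] at h
    rw [h] at hTsum
    simp at hTsum
  obtain ⟨k', hk'⟩ := Finset.card_eq_one.1 (le_antisymm hcard' hTne.card_pos)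
  -- the value
  have hval : X.s k k' / p = (n : ℂ) := by
    rw [hn, hk', Finset.prod_singleton]
  have hn2 : n ^ 2 = 1 := by
    have h1 : ‖X.s k k' / p‖ ^ 2 = 1 := by
      have h2 := hTsum
      rw [hk', Finset.sum_singleton] at h2
      exact h2
    rw [hval, Complex.norm_intCast, sq_abs] at h1
    exact_mod_cast h1
  have hskk : X.s k k' = (n : ℂ) * p := by
    rw [← hval]
    field_simp
  have hs0 : ∀ i, i ≠ k' → X.s k i = 0 := by
    intro i hi
    by_contra h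
    have h1 := (hmem i).2 h
    rw [hk', Finset.mem_singleton] at h1
    exact hi h1
  have hnC : (n : ℂ) ^ 2 = 1 := by exact_mod_cast hn2
  -- the exponents
  have hp1 : Fact (1 < p ^ 1) := ⟨by rw [pow_one]; exact hp.one_lt⟩
  have hNZ : NeZero (p ^ 1) := ⟨pow_ne_zero 1 hp.ne_zero⟩
  have hv1 : ((1 : (ZMod (p ^ 1))ˣ) : ZMod (p ^ 1)).val = 1 := by
    rw [Units.val_one]
    exact ZMod.val_one (p ^ 1)
  have hvm : (-(((1 : (ZMod (p ^ 1))ˣ)⁻¹ : (ZMod (p ^ 1))ˣ) : ZMod (p ^ 1))).val = p - 1 := by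
    rw [inv_one, Units.val_one, ZMod.neg_val, if_neg one_ne_zero, ZMod.val_one, pow_one]
  have htp : ∀ i, X.t i ^ p = 1 := by
    intro i
    have := X.t_pow i
    rwa [pow_one] at this
  have ht0 : ∀ i, X.t i ≠ 0 := by
    intro i h
    have := htp i
    rw [h, zero_pow hp.ne_zero] at this
    exact zero_ne_one this
  have hW := X.weil 1 k k
  rw [hv1, hvm, inv_one, X.pi_one] at hW
  have hL : ∑ l, X.t l ^ 1 * (X.s k l * X.s l k) = X.t k' * (p : ℂ) ^ 2 := by
    rw [Finset.sum_eq_single k']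
    · rw [pow_one, X.s_symm k' k, hskk]
      linear_combination X.t k' * (p : ℂ) ^ 2 * hnC
    · intro l _ hl
      rw [hs0 l hl]
      ring
    · intro h
      exact absurd (Finset.mem_univ _) h
  rw [hL] at hW
  have hkk : k = k' := by
    by_contra h
    rw [hs0 k h, mul_zero] at hW
    exact mul_ne_zero (ht0 k') (pow_ne_zero 2 hp0) hW
  rw [← hkk] at hskk hs0 hW
  rw [hskk] at hW
  have hq : (X.t k ^ (p - 1)) * X.t k = 1 := by
    rw [← pow_succ, Nat.sub_add_cancel hp.one_lt.le]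
    exact htp k
  have h3 : X.t k ^ 3 = (n : ℂ) := by
    have h31 : X.t k = (n : ℂ) * (X.t k ^ (p - 1) * X.t k ^ (p - 1)) := by
      have h32 : (p : ℂ) ^ 2 * X.t k
          = (p : ℂ) ^ 2 * ((n : ℂ) * (X.t k ^ (p - 1) * X.t k ^ (p - 1))) := by
        linear_combination hW
      exact mul_left_cancel₀ (pow_ne_zero 2 hp0) h32
    calc X.t k ^ 3 = X.t k * X.t k ^ 2 := by ring
      _ = (n : ℂ) * (X.t k ^ (p - 1) * X.t k ^ (p - 1)) * X.t k ^ 2 := by rw [← h31]
      _ = (n : ℂ) * ((X.t k ^ (p - 1)) * X.t k) ^ 2 := by ring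
      _ = (n : ℂ) := by rw [hq]; ring
  have h6 : X.t k ^ 6 = 1 := by
    calc X.t k ^ 6 = (X.t k ^ 3) ^ 2 := by ring
      _ = 1 := by rw [h3, hnC]
  have hc6 : Nat.gcd 6 p = 1 := by
    have h2 : Nat.Coprime 2 p := (Nat.coprime_primes Nat.prime_two hp).2 (by omega)
    have h3' : Nat.Coprime 3 p := (Nat.coprime_primes Nat.prime_three hp).2 (by omega)
    exact Nat.Coprime.mul_left h2 h3'
  have ht1 : X.t k = 1 := by
    have h1 : orderOf (X.t k) ∣ Nat.gcd 6 p :=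
      Nat.dvd_gcd (orderOf_dvd_of_pow_eq_one h6) (orderOf_dvd_of_pow_eq_one (htp k))
    rw [hc6, Nat.dvd_one] at h1
    exact orderOf_eq_one_iff.1 h1
  have hn1 : (n : ℂ) = 1 := by
    rw [← h3, ht1, one_pow]
  refine ⟨ht1, fun i => ?_⟩
  split_ifs with h
  · rw [h, hskk, hn1, one_mul]
  · exact hs0 i h

end Pool.Agent.Helper36.AL
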